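import Pool.Agent.H48.MilA

set_option autoImplicit false

namespace Pool.Agent.Results.MP_ed087a_al.No

open scoped Manifold ContDiff

theorem result : ∃ (A : Type) (_ : NormedAddCommGroup A) (_ : NormedSpace ℝ A) (G : Type)
    (_ : Group G) (_ : TopologicalSpace G) (_ : T2Space G) (_ : ChartedSpace A G)
    (_ : LieGroup 𝓘(ℝ, A) ∞ G) (γ : Multiplicative ℝ →* G), Continuous γ ∧
    ¬ MDifferentiableAt 𝓘(ℝ, ℝ) 𝓘(ℝ, A) (fun t : ℝ => γ (Multiplicative.ofAdd t)) 0 := by
  open Pool.Agent.H48.MilA in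
  refine ⟨A, inferInstance, inferInstance, Aˣ, inferInstance, inferInstance, inferInstance,
    (emb hO hC).singletonChartedSpace, (lie hO hC).1, γ, γ_cont, fun h => not_diff ?_⟩
  open Pool.Agent.H48.MilA in
  let := (emb hO hC).singletonChartedSpace
  open Pool.Agent.H48.MilA in
  exact mdifferentiableAt_iff_differentiableAt.1
    (((lie hO hC).2.mdifferentiableAt (by simp)).comp 0 h)

end Pool.Agent.Results.MP_ed087a_al.No
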